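import Pool.Agent.H79.TD.Stm3
import Pool.Agent.H77.TF.Pri

/-!
# Reduction of a basis of the logarithmic fields modulo almost all primes
-/

set_option autoImplicit false

open MvPolynomial Module Pool.Agent.H77.TF Pool.Agent.H77.GR Pool.Agent.H79.TD

namespace Pool.Agent.H99.TD

/-- common denominator of a polynomial -/
lemma int1 (f : MvPolynomial (Fin 3) ℚ) : ∃ (N : ℤ) (g : MvPolynomial (Fin 3) ℤ), N ≠ 0 ∧
    map (Int.castRingHom ℚ) g = C (N : ℚ) * f := by
  induction f using MvPolynomial.induction_on with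
  | C a =>
    refine ⟨a.den, C a.num, by exact_mod_cast a.den_nz, ?_⟩
    rw [map_C, ← C_mul]
    congr 1
    have h := Rat.mul_den_eq_num a
    simp only [eq_intCast, Int.cast_natCast]
    rw [mul_comm, h]
  | add p q hp hq =>
    obtain ⟨N1, g1, h1, e1⟩ := hp
    obtain ⟨N2, g2, h2, e2⟩ := hq
    refine ⟨N1 * N2, C N2 * g1 + C N1 * g2, mul_ne_zero h1 h2, ?_⟩
    rw [map_add, map_mul, map_mul, map_C, map_C, e1, e2]
    simp only [eq_intCast, Int.cast_mul, C_mul]
    ring
  | mul_X p i hp =>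
    obtain ⟨N1, g1, h1, e1⟩ := hp
    refine ⟨N1, g1 * X i, h1, ?_⟩
    rw [map_mul, map_X, e1]
    ring

/-- common denominator of a vector field -/
lemma int3 (f : Fin 3 → MvPolynomial (Fin 3) ℚ) : ∃ (N : ℤ) (g : Fin 3 → MvPolynomial (Fin 3) ℤ),
    N ≠ 0 ∧ ∀ i, map (Int.castRingHom ℚ) (g i) = C (N : ℚ) * f i := by
  choose N g h1 h2 using fun i => int1 (f i)
  refine ⟨∏ i, N i, fun i => C (∏ l ∈ Finset.univ.erase i, N l) * g i,
    Finset.prod_ne_zero_iff.2 fun i _ => h1 i, fun i => ?_⟩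
  rw [map_mul, map_C, h2, ← mul_assoc, ← C_mul, ← Finset.prod_erase_mul _ _ (Finset.mem_univ i)]
  simp only [eq_intCast, Int.cast_mul]

lemma map_lin {R R' : Type} [CommRing R] [CommRing R'] (f : R →+* R') {ν : Type}
    (A : ν → Fin 3 → R) (i : ν) : map f (linR (A i)) = linR (mapA f A i) := by
  unfold linR mapA
  simp only [map_sum, map_mul, map_C, map_X]

lemma map_evl {R R' : Type} [CommRing R] [CommRing R'] (f : R →+* R') {ν : Type}
    (A : ν → Fin 3 → R) (i : ν) (v : Fin 3 → MvPolynomial (Fin 3) R) :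
    map f (evlR (A i) v) = evlR (mapA f A i) (mapV f v) := by
  unfold evlR mapA mapV
  simp only [map_sum, map_mul, map_C]

lemma map_det {R R' : Type} [CommRing R] [CommRing R'] (f : R →+* R')
    (V : Fin 3 → Fin 3 → MvPolynomial (Fin 3) R) :
    map f (Matrix.of V).det = (Matrix.of fun k => mapV f (V k)).det := by
  rw [RingHom.map_det]
  rfl

lemma lin_hom {K : Type} [Field K] (a : Fin 3 → K) : (lin a).IsHomogeneous 1 := by
  unfold lin
  refine IsHomogeneous.sum _ _ _ fun i _ => ?_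
  have h := (isHomogeneous_C (Fin 3) (a i)).mul (isHomogeneous_X K i)
  rwa [zero_add] at h

lemma det_hom {K : Type} [Field K] (w : Fin 3 → Fin 3 → MvPolynomial (Fin 3) K) (e : Fin 3 → ℕ)
    (h : ∀ j i, (w j i).IsHomogeneous (e j)) : (Matrix.of w).det.IsHomogeneous (∑ j, e j) := by
  rw [Matrix.det_apply]
  refine IsHomogeneous.sum _ _ _ fun σ _ => ?_
  have h1 : (∏ i, Matrix.of w (σ i) i).IsHomogeneous (∑ i, e (σ i)) :=
    IsHomogeneous.prod _ _ _ fun i _ => h (σ i) i
  rw [Equiv.sum_comp σ e] at h1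
  rcases Int.units_eq_one_or (Equiv.Perm.sign σ) with hs | hs
  · rw [hs, one_smul]
    exact h1
  · rw [hs, Units.neg_smul, one_smul]
    exact h1.neg

theorem t_RDC (hSAC : S_SAC) (hSAI : S_SAI) : S_RDC := by
  intro n A e hA hE
  obtain ⟨b, hb⟩ := hE
  obtain ⟨c, hc, hdet⟩ := hSAC ℚ (Fin n) (mapA (Int.castRingHom ℚ) A) hA b
  have hinj : Function.Injective (map (Int.castRingHom ℚ) :
      MvPolynomial (Fin 3) ℤ →+* MvPolynomial (Fin 3) ℚ) :=
    map_injective _ (RingHom.injective_int _)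
  have hl0 : ∏ i, lin (mapA (Int.castRingHom ℚ) A i) ≠ 0 :=
    Finset.prod_ne_zero_iff.2 fun i _ => lin_ne_zero (hA.1 i)
  constructor
  · have h1 := det_hom (fun k => (b k : Fin 3 → MvPolynomial (Fin 3) ℚ)) e hb
    have h2 : (C c * ∏ i, lin (mapA (Int.castRingHom ℚ) A i)).IsHomogeneous n := by
      have h3 : (∏ i, lin (mapA (Int.castRingHom ℚ) A i)).IsHomogeneous (∑ _i : Fin n, 1) :=
        IsHomogeneous.prod _ _ _ fun i _ => lin_hom _
      have h4 := (isHomogeneous_C (Fin 3) c).mul h3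
      simpa using h4
    rw [hdet] at h1
    refine h1.inj_right h2 (mul_ne_zero ?_ hl0)
    rwa [Ne, C_eq_zero]
  -- integral vector fields
  choose N V hN hV using fun j => int3 (b j : Fin 3 → MvPolynomial (Fin 3) ℚ)
  have hVQ : ∀ j, mapV (Int.castRingHom ℚ) (V j) = 
      (C (N j : ℚ) : MvPolynomial (Fin 3) ℚ) • (b j : Fin 3 → MvPolynomial (Fin 3) ℚ) := by
    intro j
    funext i
    exact hV j i
  have hVhom : ∀ j i, (V j i).IsHomogeneous (e j) := by
    intro j i
    refine IsHomogeneous.of_map (RingHom.injective_int (Int.castRingHom ℚ)) ?_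
    rw [hV]
    have h := (isHomogeneous_C (Fin 3) (N j : ℚ)).mul (hb j i)
    rwa [zero_add] at h
  have hVL : ∀ j i, ∃ (M : ℤ) (G : MvPolynomial (Fin 3) ℤ), M ≠ 0 ∧
      C M * evlR (A i) (V j) = linR (A i) * G := by
    intro j i
    have h1 : mapV (Int.castRingHom ℚ) (V j) ∈ LD (mapA (Int.castRingHom ℚ) A) := by
      rw [hVQ]
      exact Submodule.smul_mem _ _ (b j).2
    obtain ⟨G, hG⟩ := h1 i
    obtain ⟨M, G', hM, hG'⟩ := int1 G
    refine ⟨M, G', hM, hinj ?_⟩
    rw [map_mul, map_mul, map_C, map_lin, map_evl, hG', linR_eq, evlR_eq, hG]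
    simp only [eq_intCast]
    ring
  choose M G hM hG using hVL
  -- the determinant
  obtain ⟨M', D', hM', hD', hdetZ⟩ : ∃ M' D' : ℤ, M' ≠ 0 ∧ D' ≠ 0 ∧
      C M' * (Matrix.of V).det = C D' * ∏ i, linR (A i) := by
    set r : ℚ := (∏ j, (N j : ℚ)) * c with hr
    have hr0 : r ≠ 0 := by
      refine mul_ne_zero (Finset.prod_ne_zero_iff.2 fun j _ => ?_) hc
      exact_mod_cast hN j
    refine ⟨r.den, r.num, by exact_mod_cast r.den_nz, Rat.num_ne_zero.2 hr0, hinj ?_⟩
    rw [map_mul, map_mul, map_C, map_C, map_det, map_prod]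
    have h1 : (Matrix.of fun k => mapV (Int.castRingHom ℚ) (V k)).det =
        C (∏ j, (N j : ℚ)) * (Matrix.of fun k => (b k : Fin 3 → MvPolynomial (Fin 3) ℚ)).det := by
      have h2 : (Matrix.of fun k => mapV (Int.castRingHom ℚ) (V k)) =
          Matrix.of fun k i => C (N k : ℚ) *
            (Matrix.of fun k => (b k : Fin 3 → MvPolynomial (Fin 3) ℚ)) k i := by
        ext1 k i
        rw [Matrix.of_apply, hVQ]
        rfl
      rw [h2, Matrix.det_mul_column, map_prod]
    rw [h1, hdet]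
    have h3 : ∀ i, map (Int.castRingHom ℚ) (linR (A i)) =
        lin (mapA (Int.castRingHom ℚ) A i) := fun i => by rw [map_lin, linR_eq]
    rw [Finset.prod_congr rfl fun i _ => h3 i, ← mul_assoc, ← mul_assoc, ← C_mul, ← C_mul]
    congr 2
    simp only [eq_intCast, Int.cast_natCast]
    have h4 := Rat.mul_den_eq_num r
    rw [← h4, hr]
    ring
  refine ⟨M'.natAbs * D'.natAbs * ∏ j, ∏ i, (M j i).natAbs, ?_, ?_⟩
  · refine mul_ne_zero (mul_ne_zero (Int.natAbs_ne_zero.2 hM') (Int.natAbs_ne_zero.2 hD')) ?_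
    exact Finset.prod_ne_zero_iff.2 fun j _ => Finset.prod_ne_zero_iff.2 fun i _ =>
      Int.natAbs_ne_zero.2 (hM j i)
  intro k _ p hp _ hpt hS
  have hcast : ∀ z : ℤ, ¬ p ∣ z.natAbs → (z : k) ≠ 0 := by
    intro z hz h0
    rw [CharP.intCast_eq_zero_iff k p z, Int.natCast_dvd] at h0
    exact hz h0
  have hM'k : (M' : k) ≠ 0 := hcast _ fun h =>
    hpt (Dvd.dvd.mul_right (Dvd.dvd.mul_right h _) _)
  have hD'k : (D' : k) ≠ 0 := hcast _ fun h =>
    hpt (Dvd.dvd.mul_right (Dvd.dvd.mul_left h _) _)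
  have hMk : ∀ j i, (M j i : k) ≠ 0 := fun j i => hcast _ fun h =>
    hpt (Dvd.dvd.mul_left ((h.trans (Finset.dvd_prod_of_mem (fun i => (M j i).natAbs)
      (Finset.mem_univ i))).trans (Finset.dvd_prod_of_mem (fun j => ∏ i, (M j i).natAbs)
      (Finset.mem_univ j))) _)
  have hLD : ∀ j, mapV (Int.castRingHom k) (V j) ∈ LD (mapA (Int.castRingHom k) A) := by
    intro j i
    have h1 := congrArg (map (Int.castRingHom k)) (hG j i)
    rw [map_mul, map_mul, map_C, map_lin, map_evl, linR_eq, evlR_eq] at h1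
    have h2 : evl (mapA (Int.castRingHom k) A i) (mapV (Int.castRingHom k) (V j)) =
        lin (mapA (Int.castRingHom k) A i) * (C (M j i : k)⁻¹ * map (Int.castRingHom k) (G j i)) := by
      have h3 : (C (M j i : k)⁻¹ : MvPolynomial (Fin 3) k) * C ((Int.castRingHom k) (M j i)) = 1 := by
        rw [← C_mul, eq_intCast, inv_mul_cancel₀ (hMk j i), C_1]
      calc evl (mapA (Int.castRingHom k) A i) (mapV (Int.castRingHom k) (V j))
          = (C (M j i : k)⁻¹ * C ((Int.castRingHom k) (M j i))) *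
            evl (mapA (Int.castRingHom k) A i) (mapV (Int.castRingHom k) (V j)) := by
            rw [h3, one_mul]
        _ = C (M j i : k)⁻¹ * (lin (mapA (Int.castRingHom k) A i) *
              map (Int.castRingHom k) (G j i)) := by rw [← h1]; ring
        _ = _ := by ring
    exact ⟨_, h2⟩
  have hd : (Matrix.of fun j => mapV (Int.castRingHom k) (V j)).det =
      C ((D' : k) / M') * ∏ i, lin (mapA (Int.castRingHom k) A i) := by
    have h1 := congrArg (map (Int.castRingHom k)) hdetZ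
    rw [map_mul, map_mul, map_C, map_C, map_det, map_prod] at h1
    have h3 : ∀ i, map (Int.castRingHom k) (linR (A i)) =
        lin (mapA (Int.castRingHom k) A i) := fun i => by rw [map_lin, linR_eq]
    rw [Finset.prod_congr rfl fun i _ => h3 i] at h1
    simp only [eq_intCast] at h1
    have h4 : (C (M' : k)⁻¹ : MvPolynomial (Fin 3) k) * C (M' : k) = 1 := by
      rw [← C_mul, inv_mul_cancel₀ hM'k, C_1]
    rw [div_eq_inv_mul, C_mul, mul_assoc, ← h1, ← mul_assoc, h4, one_mul]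
  obtain ⟨b', hb'⟩ := hSAI k 3 (Fin n) (mapA (Int.castRingHom k) A) hS
    (fun j => mapV (Int.castRingHom k) (V j)) ((D' : k) / M') (div_ne_zero hD'k hM'k) hLD hd
  refine ⟨b', fun j i => ?_⟩
  rw [hb']
  exact (hVhom j i).map _

end Pool.Agent.H99.TD
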