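import Pool.Agent.H79.TD.Stm3

/-!
# The theorem over the rational numbers from the theorem over prime fields
-/

set_option autoImplicit false

open MvPolynomial Module Pool.Agent.H77.TF Pool.Agent.H77.GR Pool.Agent.H79.TD

namespace Pool.Agent.H99.TD

lemma mapA_comp {R R' R'' : Type} [CommRing R] [CommRing R'] [CommRing R''] (f : R →+* R')
    (g : R' →+* R'') (h : R →+* R'') (hc : g.comp f = h) {ν : Type} (A : ν → Fin 3 → R) :
    mapA g (mapA f A) = mapA h A := by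
  subst hc
  rfl

theorem t_FINQ (hBIJ : S_BIJ) (hSCL : S_SCL) (hSCI : S_SCI) (hRDC : S_RDC) (hGOD : S_GOD)
    (hDVQ : S_DVQ) (hPAT : S_PAT) (hTRF : S_TRF) (hGRT : S_GRT) : S_FINQ := by
  intro n m A B hA hB hL a b hab h2 hE
  obtain ⟨β, hβ⟩ := hBIJ ℚ 3 n m A B hA hB hL
  have hmn : m = n := by
    have h := Fintype.card_congr β
    rw [Fintype.card_fin, Fintype.card_fin] at h
    exact h.symm
  refine ⟨hmn, ?_⟩
  obtain ⟨A', c, hc, hA'⟩ := hSCL n A
  obtain ⟨B', d, hd, hB'⟩ := hSCL m B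
  obtain ⟨hA1, hA2, hA3⟩ := hSCI ℚ n A (mapA (Int.castRingHom ℚ) A') c hc hA'
  obtain ⟨hB1, hB2, hB3⟩ := hSCI ℚ m B (mapA (Int.castRingHom ℚ) B') d hd hB'
  obtain ⟨hsum, t, ht, hRt⟩ := hRDC n A' ![1, a, b] (hA1 hA) ((hA2 _).1 hE)
  obtain ⟨t1, ht1, hG1⟩ := hGOD n A' (hA1 hA)
  obtain ⟨t2, ht2, hG2⟩ := hGOD m B' (hB1 hB)
  obtain ⟨p, hpl, hp⟩ := Nat.exists_infinite_primes (t * t1 * t2 + 1)
  have : Fact p.Prime := ⟨hp⟩
  have hnd : ¬ p ∣ t * t1 * t2 := fun h => by
    have := Nat.le_of_dvd (Nat.pos_of_ne_zero (mul_ne_zero (mul_ne_zero ht ht1) ht2)) h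
    omega
  have hn0 : ¬ p ∣ t := fun h => hnd (Dvd.dvd.mul_right (Dvd.dvd.mul_right h _) _)
  have hn1 : ¬ p ∣ t1 := fun h => hnd (Dvd.dvd.mul_right (Dvd.dvd.mul_left h _) _)
  have hn2 : ¬ p ∣ t2 := fun h => hnd (Dvd.dvd.mul_left h _)
  obtain ⟨R, i1, i2, i3, i4, i5, i6, hch, hcard⟩ := hDVQ p
  have hGA : Good (mapA (Int.castRingHom R) A') := hG1 R p hn1
  have hGB : Good (mapA (Int.castRingHom R) B') := hG2 R p hn2
  have eA : mapA (algebraMap R ℚ) (mapA (Int.castRingHom R) A') = mapA (Int.castRingHom ℚ) A' :=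
    mapA_comp _ _ _ (RingHom.ext_int _ _) A'
  have eB : mapA (algebraMap R ℚ) (mapA (Int.castRingHom R) B') = mapA (Int.castRingHom ℚ) B' :=
    mapA_comp _ _ _ (RingHom.ext_int _ _) B'
  have fA : mapA (IsLocalRing.residue R) (mapA (Int.castRingHom R) A') =
      mapA (Int.castRingHom (IsLocalRing.ResidueField R)) A' :=
    mapA_comp _ _ _ (RingHom.ext_int _ _) A'
  obtain ⟨sA, pA⟩ := hPAT R ℚ (Fin n) (mapA (Int.castRingHom R) A') hGA
  obtain ⟨sB, pB⟩ := hPAT R ℚ (Fin m) (mapA (Int.castRingHom R) B') hGB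
  have hEk : HasExp (mapA (IsLocalRing.residue R) (mapA (Int.castRingHom R) A')) ![1, a, b] := by
    have h := hGA.1
    rw [fA] at h ⊢
    exact hRt (IsLocalRing.ResidueField R) p hn0 h
  have hrel : ∀ i j k,
      mapA (IsLocalRing.residue R) (mapA (Int.castRingHom R) A') k ∈
          Submodule.span (IsLocalRing.ResidueField R)
            {mapA (IsLocalRing.residue R) (mapA (Int.castRingHom R) A') i,
              mapA (IsLocalRing.residue R) (mapA (Int.castRingHom R) A') j} ↔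
        mapA (IsLocalRing.residue R) (mapA (Int.castRingHom R) B') (β k) ∈
          Submodule.span (IsLocalRing.ResidueField R)
            {mapA (IsLocalRing.residue R) (mapA (Int.castRingHom R) B') (β i),
              mapA (IsLocalRing.residue R) (mapA (Int.castRingHom R) B') (β j)} := by
    intro i j k
    rw [← pA i j k, ← pB (β i) (β j) (β k), eA, eB, hA3, hB3]
    exact hβ i j k
  have hBk := hTRF (IsLocalRing.ResidueField R) n m _ _ hGA.1 hGB.1 β hrel a b hab h2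
    (Or.inl (by rw [hcard]; exact hp)) hEk
  have hBQ := hGRT R ℚ m (mapA (Int.castRingHom R) B') hGB ![1, a, b] hBk (by rw [hsum, hmn])
  rw [eB] at hBQ
  exact (hB2 _).2 hBQ

end Pool.Agent.H99.TD
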