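import Pool.Agent.H79.TD.Stm3
import Pool.Agent.H77.TF.Pri
import Pool.Agent.H99.TD.Rdc

/-!
# The transfer of freeness from the criterion
-/

set_option autoImplicit false

open MvPolynomial Module Pool.Agent.H77.TF Pool.Agent.H77.GR Pool.Agent.H79.TD

namespace Pool.Agent.H99.TD

lemma sum_exp (hSAC : S_SAC) {K : Type} [Field K] {ν : Type} [Fintype ν] {A : ν → Fin 3 → K}
    (hA : Simple A) {e : Fin 3 → ℕ} (hE : HasExp A e) : ∑ j, e j = Fintype.card ν := by
  obtain ⟨b, hb⟩ := hE
  obtain ⟨c, hc, hdet⟩ := hSAC K ν A hA b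
  have hl0 : ∏ i, lin (A i) ≠ 0 := Finset.prod_ne_zero_iff.2 fun i _ => lin_ne_zero (hA.1 i)
  have h1 := det_hom (fun k => (b k : Fin 3 → MvPolynomial (Fin 3) K)) e hb
  have h2 : (C c * ∏ i, lin (A i)).IsHomogeneous (Fintype.card ν) := by
    have h3 : (∏ i, lin (A i)).IsHomogeneous (∑ _i : ν, 1) :=
      IsHomogeneous.prod _ _ _ fun i _ => lin_hom _
    have h4 := (isHomogeneous_C (Fin 3) c).mul h3
    simpa using h4
  rw [hdet] at h1
  refine h1.inj_right h2 (mul_ne_zero ?_ hl0)
  rwa [Ne, C_eq_zero]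

lemma swap_exp {K : Type} [Field K] {ν : Type} {A : ν → Fin 3 → K} {x y : ℕ}
    (h : HasExp A ![1, x, y]) : HasExp A ![1, y, x] := by
  obtain ⟨b, hb⟩ := h
  refine ⟨b.reindex (Equiv.swap 1 2), fun j i => ?_⟩
  rw [Basis.reindex_apply]
  fin_cases j
  · have e : (Equiv.swap (1 : Fin 3) 2) 0 = 0 := by decide
    have h := hb 0 i
    simpa [e] using h
  · have e : (Equiv.swap (1 : Fin 3) 2).symm 1 = 2 := by decide
    have h := hb 2 i
    simpa [e] using h
  · have e : (Equiv.swap (1 : Fin 3) 2).symm 2 = 1 := by decide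
    have h := hb 1 i
    simpa [e] using h

lemma blocks_of {K : Type} [Field K] [Fintype K] {ν : Type} {A : ν → Fin 3 → K}
    (h : uncD A = 0) : BlocksD A := by
  classical
  have : Finite (Submodule K (Fin 3 → K)) :=
    Finite.of_injective (fun W : Submodule K (Fin 3 → K) => (W : Set (Fin 3 → K)))
      SetLike.coe_injective
  unfold uncD at h
  rw [Nat.card_eq_zero] at h
  rcases h with h | h
  · intro W hW
    by_contra hc
    push Not at hc
    exact h.false ⟨W, hW, hc⟩
  · exact absurd (inferInstance : Finite _) (not_finite_iff_infinite.2 h)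

lemma char_of {K : Type} [Field K] [Fintype K] {a b : ℕ} (hab : a ≤ b) (hb : b < Fintype.card K)
    (h : Nat.Prime (Fintype.card K) ∨ a ≤ ringChar K) : ∀ k : ℕ, 0 < k → k < a → (k : K) ≠ 0 := by
  have ha : a ≤ ringChar K := by
    rcases h with h | h
    · obtain ⟨n, hp, hn⟩ := FiniteField.card K (ringChar K)
      have h1 : ringChar K ∣ Fintype.card K := by
        rw [hn]
        exact dvd_pow_self _ n.ne_zero
      have h2 := (Nat.dvd_prime h).1 h1
      rcases h2 with h2 | h2
      · exact absurd h2 hp.ne_one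
      · omega
    · exact h
  intro k hk hka h0
  have h1 := (ringChar.spec K k).1 h0
  have h2 := Nat.le_of_dvd hk h1
  omega

theorem t_TRF (hSAC : S_SAC) (hCRT : S_CRT) (hMUL : S_MUL) (hMLT : S_MLT) (hUEX : S_UEX)
    (hLT2 : S_LT2) (hDU2 : S_DU2) (hFIN4 : S_FIN4) (hFIN3 : S_FIN3) (hBP3 : S_BP3) : S_TRF := by
  intro K _ _ n m A B hA hB β hβ a b hab h2 hK hE
  obtain rfl : m = n := by
    have h := Fintype.card_congr β
    rw [Fintype.card_fin, Fintype.card_fin] at h
    exact h.symm
  rcases Nat.eq_zero_or_pos m with h0 | hn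
  · subst h0
    have e : B = A := Subsingleton.elim _ _
    rwa [e]
  have : Nonempty (Fin m) := ⟨⟨0, hn⟩⟩
  have hU : uncD A = uncD B := hLT2 K 3 m m A B hA hB β hβ
  have hsum : 1 + a + b = m := by
    have h := sum_exp hSAC hA hE
    rw [Fin.sum_univ_three, Fintype.card_fin] at h
    exact h
  obtain ⟨hF1, hF2⟩ := (hFIN4 K).1 m A hn hA
  rcases Nat.eq_zero_or_pos (uncD A) with hz | hpos
  · have eA : HasExp A ![1, Fintype.card K, m - 1 - Fintype.card K] :=
      (hFIN3 K m A hn hA).2.1 ((hBP3 K (Fin m) A).2 (blocks_of hz))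
    have eB : HasExp B ![1, Fintype.card K, m - 1 - Fintype.card K] :=
      (hFIN3 K m B hn hB).2.1 ((hBP3 K (Fin m) B).2 (blocks_of (hU.symm.trans hz)))
    rcases le_total (Fintype.card K) (m - 1 - Fintype.card K) with hle | hle
    · obtain ⟨r1, r2⟩ := hUEX K (Fin m) A a b _ _ hab hle hE eA
      rw [r1, r2]
      exact eB
    · obtain ⟨r1, r2⟩ := hUEX K (Fin m) A a b _ _ hab hle hE (swap_exp eA)
      rw [r1, r2]
      exact swap_exp eB
  · have hfree : Module.Free (MvPolynomial (Fin 3) K) (LD A) := by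
      obtain ⟨bb, _⟩ := hE
      exact Module.Free.of_basis bb
    have hd : unc A = uncD A := hDU2 K 3 (Fin m) A (by norm_num)
    rcases hF1 hfree with h | ⟨u, w, hu, huw, hs, hun⟩
    · omega
    obtain ⟨-, htf, -⟩ := hF2 u w hu huw hs hun
    have hE' := (htf.out 0 1).1 hfree
    have hV := (htf.out 0 2).1 hfree
    obtain ⟨r1, r2⟩ := hUEX K (Fin m) A a b _ _ hab (by omega) hE hE'
    have hwq : w ≤ Fintype.card K := by omega
    have huq : u ≤ Fintype.card K := by omega
    have hbq : b < Fintype.card K := by omega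
    have hVD : ∀ k < u, VD A k = ⊥ := by
      intro k hk
      rw [Submodule.eq_bot_iff]
      rintro f ⟨hf1, hf2⟩
      exact hV k hk f hf1 hf2
    refine hCRT K m B a b hB hab hbq hsum.symm ?_ h2 (char_of hab hbq hK) ?_
    · have e1 : Fintype.card K - a = w := by omega
      have e2 : Fintype.card K - b = u := by omega
      rw [← hU, ← hd, hun, e1, e2, mul_comm]
    · intro W hW
      by_cases hc : 2 ≤ Nat.card {i // B i ∈ W}
      · obtain ⟨W', hW', hc'⟩ := hMLT K K m m A B hA hB β hβ W hW hc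
        have h3 := hMUL K (Fin m) A u W' hA hVD hW'
        omega
      · omega

end Pool.Agent.H99.TD
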